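import Pool.Agent.TH703.HU.Stm

/-! # HU C1: the weight for large `m` -/

set_option autoImplicit false

open MeasureTheory Set Metric Filter Topology
open scoped ENNReal Real
open Pool.Agent.TH304.MI Pool.Agent.TH703.HU

namespace Pool.Agent.TH81.HU

/-- the density -/
noncomputable def ff (m : ℕ) (u : ℝ) : ℝ := (1 - 4 * u ^ 2) ^ m

theorem ff_cont (m : ℕ) : Continuous (ff m) := by unfold ff; fun_prop

theorem ff_int (m : ℕ) (a b : ℝ) : IntervalIntegrable (ff m) volume a b :=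
  (ff_cont m).intervalIntegrable _ _

theorem ff_nonneg (m : ℕ) {u : ℝ} (h1 : -(1 / 2) ≤ u) (h2 : u ≤ 1 / 2) : 0 ≤ ff m u := by
  unfold ff
  apply pow_nonneg
  nlinarith

theorem ff_neg (m : ℕ) (u : ℝ) : ff m (-u) = ff m u := by
  unfold ff
  rw [neg_sq]

theorem mono_int (m : ℕ) {a b c d : ℝ} (h0 : -(1 / 2) ≤ c) (hca : c ≤ a) (hab : a ≤ b)
    (hbd : b ≤ d) (h1 : d ≤ 1 / 2) : ∫ u in a..b, ff m u ≤ ∫ u in c..d, ff m u := by
  refine intervalIntegral.integral_mono_interval hca hab hbd ?_ (ff_int m c d)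
  refine (ae_restrict_iff' measurableSet_Ioc).2 (Eventually.of_forall fun u hu => ?_)
  exact ff_nonneg m (h0.trans hu.1.le) (hu.2.trans h1)

theorem NN_eq (m : ℕ) : NN m = 2 * ∫ u in (0 : ℝ)..(1 / 2), ff m u := by
  have h1 : NN m = ∫ u in (-(1 / 2) : ℝ)..(1 / 2), ff m u := rfl
  have h2 : ∫ u in (-(1 / 2) : ℝ)..0, ff m u = ∫ u in (0 : ℝ)..(1 / 2), ff m u := by
    have h3 := intervalIntegral.integral_comp_neg (a := (0 : ℝ)) (b := 1 / 2) (ff m)
    simp only [ff_neg, neg_zero] at h3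
    exact h3.symm
  rw [h1, ← intervalIntegral.integral_add_adjacent_intervals (ff_int m _ 0) (ff_int m 0 _), h2]
  ring

theorem mid_eq (m : ℕ) (δ : ℝ) :
    ∫ u in (-δ)..δ, ff m u = NN m - 2 * ∫ u in δ..(1 / 2), ff m u := by
  have h2 : ∫ u in (-δ)..0, ff m u = ∫ u in (0 : ℝ)..δ, ff m u := by
    have h3 := intervalIntegral.integral_comp_neg (a := (0 : ℝ)) (b := δ) (ff m)
    simp only [ff_neg, neg_zero] at h3
    exact h3.symm
  rw [NN_eq, ← intervalIntegral.integral_add_adjacent_intervals (ff_int m _ 0) (ff_int m 0 δ), h2,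
    ← intervalIntegral.integral_add_adjacent_intervals (ff_int m 0 δ) (ff_int m δ (1 / 2))]
  ring

/-! ### lower bounds -/

theorem ff_lower (m : ℕ) (hm : 4 ≤ m) {u : ℝ} (hu : m * u ^ 2 ≤ 1) :
    (1 - m * u ^ 2) ^ 4 ≤ ff m u := by
  have hmR : (4 : ℝ) ≤ m := by exact_mod_cast hm
  have h4 : 4 * u ^ 2 ≤ 1 := by nlinarith [sq_nonneg u]
  have h1 : (1 : ℝ) + (m / 4) * (-(4 * u ^ 2)) ≤ (1 + -(4 * u ^ 2)) ^ ((m : ℝ) / 4) :=
    one_add_mul_self_le_rpow_one_add (by linarith) (by linarith)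
  have h2 : (1 : ℝ) + (m / 4) * (-(4 * u ^ 2)) = 1 - m * u ^ 2 := by ring
  rw [h2, ← sub_eq_add_neg] at h1
  have h3 : 0 ≤ 1 - 4 * u ^ 2 := by linarith
  calc (1 - m * u ^ 2) ^ 4 ≤ ((1 - 4 * u ^ 2) ^ ((m : ℝ) / 4)) ^ 4 :=
        pow_le_pow_left₀ (by linarith) h1 4
    _ = (1 - 4 * u ^ 2) ^ ((m : ℝ) / 4 * (4 : ℕ)) := (Real.rpow_mul_natCast h3 _ _).symm
    _ = ff m u := by
        have : (m : ℝ) / 4 * (4 : ℕ) = m := by push_cast; ring
        rw [this, Real.rpow_natCast]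
        rfl

theorem poly_int (M r : ℝ) (h : M * r ^ 2 = 1) :
    ∫ u in (0 : ℝ)..r, (1 - M * u ^ 2) ^ 4 = 128 / 315 * r := by
  have hd : ∀ u ∈ uIcc 0 r, HasDerivAt (fun u : ℝ => u - 4 / 3 * M * u ^ 3 + 6 / 5 * M ^ 2 * u ^ 5 -
      4 / 7 * M ^ 3 * u ^ 7 + 1 / 9 * M ^ 4 * u ^ 9) ((1 - M * u ^ 2) ^ 4) u := by
    intro u _
    have h1 := hasDerivAt_id u
    have h3 := (hasDerivAt_pow 3 u).const_mul (4 / 3 * M)
    have h5 := (hasDerivAt_pow 5 u).const_mul (6 / 5 * M ^ 2)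
    have h7 := (hasDerivAt_pow 7 u).const_mul (4 / 7 * M ^ 3)
    have h9 := (hasDerivAt_pow 9 u).const_mul (1 / 9 * M ^ 4)
    refine ((((h1.sub h3).add h5).sub h7).add h9).congr_deriv ?_
    push_cast
    ring
  rw [intervalIntegral.integral_eq_sub_of_hasDerivAt hd
    ((by fun_prop : Continuous fun u : ℝ => (1 - M * u ^ 2) ^ 4).intervalIntegrable _ _)]
  have e : ∀ k : ℕ, M ^ k * r ^ (2 * k + 1) = r := by
    intro k
    rw [pow_succ, pow_mul, ← mul_assoc, ← mul_pow, h, one_pow, one_mul]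
  have e1 := e 1
  have e2 := e 2
  have e3 := e 3
  have e4 := e 4
  norm_num at e1 e2 e3 e4 ⊢
  linear_combination (-(4 / 3)) * e1 + 6 / 5 * e2 - 4 / 7 * e3 + 1 / 9 * e4

theorem I_lower (m : ℕ) (hm : 400 ≤ m) : 2 / 5 / √m ≤ ∫ u in (0 : ℝ)..(1 / 20), ff m u := by
  have hmR : (400 : ℝ) ≤ m := by exact_mod_cast hm
  have hm0 : (0 : ℝ) < m := by linarith
  have hs : 0 < √(m : ℝ) := Real.sqrt_pos.2 hm0
  have hsq : √(m : ℝ) ^ 2 = m := Real.sq_sqrt hm0.le
  have hs20 : 20 ≤ √(m : ℝ) := Real.le_sqrt_of_sq_le (by norm_num; omega)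
  set r : ℝ := 1 / √m with hr
  have hr0 : 0 < r := by positivity
  have hr20 : r ≤ 1 / 20 := by
    rw [hr]
    exact one_div_le_one_div_of_le (by norm_num) hs20
  have hmr : (m : ℝ) * r ^ 2 = 1 := by
    rw [hr, div_pow, one_pow, hsq]
    field_simp
  have h1 : ∫ u in (0 : ℝ)..r, ff m u ≤ ∫ u in (0 : ℝ)..(1 / 20), ff m u :=
    mono_int m (by norm_num) le_rfl hr0.le hr20 (by norm_num)
  have h2 : ∫ u in (0 : ℝ)..r, (1 - m * u ^ 2) ^ 4 ≤ ∫ u in (0 : ℝ)..r, ff m u := by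
    refine intervalIntegral.integral_mono_on hr0.le
      ((by fun_prop : Continuous fun u : ℝ => (1 - m * u ^ 2) ^ 4).intervalIntegrable _ _)
      (ff_int m _ _) fun u hu => ff_lower m (by omega) ?_
    have : u ^ 2 ≤ r ^ 2 := pow_le_pow_left₀ hu.1 hu.2 2
    rw [← hmr]
    gcongr
  rw [poly_int m r hmr] at h2
  refine le_trans ?_ (h2.trans h1)
  rw [hr]
  have : 2 / 5 / √(m : ℝ) = 2 / 5 * (1 / √m) := by ring
  rw [this]
  exact mul_le_mul_of_nonneg_right (by norm_num) (by positivity)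

theorem NN_lower (m : ℕ) (hm : 400 ≤ m) : 4 / 5 / √m ≤ NN m := by
  rw [NN_eq]
  have h1 := I_lower m hm
  have h2 : ∫ u in (0 : ℝ)..(1 / 20), ff m u ≤ ∫ u in (0 : ℝ)..(1 / 2), ff m u :=
    mono_int m (by norm_num) le_rfl (by norm_num) (by norm_num) le_rfl
  have h3 : 4 / 5 / √(m : ℝ) = 2 * (2 / 5 / √m) := by ring
  rw [h3]
  linarith

theorem NN_pos (m : ℕ) (hm : 400 ≤ m) : 0 < NN m := by
  have hmR : (400 : ℝ) ≤ m := by exact_mod_cast hm
  have hs : 0 < √(m : ℝ) := Real.sqrt_pos.2 (by linarith)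
  exact lt_of_lt_of_le (by positivity) (NN_lower m hm)

/-! ### the tail -/

theorem tail_le (m : ℕ) {δ : ℝ} (h0 : 0 ≤ δ) (h1 : δ ≤ 1 / 2) :
    ∫ u in δ..(1 / 2), ff m u ≤ (1 - 4 * δ ^ 2) ^ m := by
  have hq : 0 ≤ 1 - 4 * δ ^ 2 := by nlinarith
  have h2 : ∫ u in δ..(1 / 2), ff m u ≤ ∫ _u in δ..(1 / 2), (1 - 4 * δ ^ 2) ^ m := by
    refine intervalIntegral.integral_mono_on h1 (ff_int m _ _) intervalIntegrable_const
      fun u hu => ?_
    unfold ff
    have h3 : δ ^ 2 ≤ u ^ 2 := pow_le_pow_left₀ h0 hu.1 2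
    have h4 : 0 ≤ 1 - 4 * u ^ 2 := by nlinarith [hu.1, hu.2]
    exact pow_le_pow_left₀ h4 (by linarith) m
  rw [intervalIntegral.integral_const, smul_eq_mul] at h2
  refine h2.trans ?_
  have h5 : 0 ≤ (1 - 4 * δ ^ 2) ^ m := pow_nonneg hq m
  nlinarith

theorem tail_small {δ ε : ℝ} (h0 : 0 < δ) (h1 : δ ≤ 1 / 2) (hε : 0 < ε) :
    ∃ m₀ : ℕ, ∀ m : ℕ, m₀ ≤ m → ∫ u in δ..(1 / 2), ff m u ≤ ε * NN m := by
  have hq0 : 0 ≤ 1 - 4 * δ ^ 2 := by nlinarith
  have hq1 : 1 - 4 * δ ^ 2 < 1 := by nlinarith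
  have ht := tendsto_self_mul_const_pow_of_lt_one hq0 hq1
  have he : ∀ᶠ m : ℕ in atTop, (m : ℝ) * (1 - 4 * δ ^ 2) ^ m < ε * (4 / 5) :=
    ht.eventually (gt_mem_nhds (by positivity))
  obtain ⟨m₀, hm₀⟩ := eventually_atTop.1 he
  refine ⟨max m₀ 400, fun m hm => ?_⟩
  have hm1 := hm₀ m ((le_max_left _ _).trans hm)
  have hm2 : 400 ≤ m := (le_max_right _ _).trans hm
  have hmR : (400 : ℝ) ≤ m := by exact_mod_cast hm2
  have hs : 0 < √(m : ℝ) := Real.sqrt_pos.2 (by linarith)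
  have hsq : √(m : ℝ) * √(m : ℝ) = m := Real.mul_self_sqrt (by linarith)
  have hs1 : 1 ≤ √(m : ℝ) := Real.one_le_sqrt.2 (by linarith)
  have hp : 0 ≤ (1 - 4 * δ ^ 2) ^ m := pow_nonneg hq0 m
  refine (tail_le m h0.le h1).trans ?_
  have h2 : √(m : ℝ) * (1 - 4 * δ ^ 2) ^ m ≤ ε * (4 / 5) := by
    have : √(m : ℝ) * (1 - 4 * δ ^ 2) ^ m ≤ m * (1 - 4 * δ ^ 2) ^ m := by
      apply mul_le_mul_of_nonneg_right _ hp
      nlinarith
    linarith
  calc (1 - 4 * δ ^ 2) ^ m = (√(m : ℝ) * (1 - 4 * δ ^ 2) ^ m) / √m := by field_simp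
    _ ≤ (ε * (4 / 5)) / √m := by gcongr
    _ = ε * (4 / 5 / √m) := by ring
    _ ≤ ε * NN m := by
        have := NN_lower m hm2
        gcongr

/-! ### the mean excess -/

/-- the part of the integral between `s` and `β` -/
noncomputable def T (m : ℕ) (β s : ℝ) : ℝ := ∫ u in s..β, ff m u

theorem T_deriv (m : ℕ) (β s : ℝ) : HasDerivAt (T m β) (-ff m s) s := by
  have h1 : T m β = fun s => -∫ u in β..s, ff m u := by
    funext s
    exact intervalIntegral.integral_symm β s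
  rw [h1]
  exact (intervalIntegral.integral_hasDerivAt_right (ff_int m β s)
    ((ff_cont m).stronglyMeasurableAtFilter _ _) (ff_cont m).continuousAt).neg

theorem T_cont (m : ℕ) (β : ℝ) : Continuous (T m β) :=
  continuous_iff_continuousAt.2 fun s => (T_deriv m β s).continuousAt

theorem T_nonneg (m : ℕ) {β s : ℝ} (h0 : -(1 / 2) ≤ s) (h1 : s ≤ β) (h2 : β ≤ 1 / 2) :
    0 ≤ T m β s :=
  intervalIntegral.integral_nonneg h1 fun _ hu =>
    ff_nonneg m (h0.trans hu.1) (hu.2.trans h2)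

theorem T_split (m : ℕ) (β s t : ℝ) : T m β s = (∫ u in s..t, ff m u) + T m β t :=
  (intervalIntegral.integral_add_adjacent_intervals (ff_int m _ _) (ff_int m _ _)).symm

theorem lc (m : ℕ) {α s w : ℝ} (hα : 0 ≤ α) (hs : 0 ≤ s) (hsw : s ≤ w) (hw : w + α ≤ 1 / 2) :
    ff m (w + α) * ff m s ≤ ff m w * ff m (s + α) := by
  unfold ff
  rw [← mul_pow, ← mul_pow]
  have h1 : 0 ≤ 1 - 4 * (w + α) ^ 2 := by nlinarith
  have h2 : 0 ≤ 1 - 4 * s ^ 2 := by nlinarith
  refine pow_le_pow_left₀ (mul_nonneg h1 h2) ?_ m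
  have h3 : 0 ≤ α * (w - s) := mul_nonneg hα (by linarith)
  have h4 : 0 ≤ α * (w - s) * (w * (α + s) + (α + w) * s) := by
    apply mul_nonneg h3
    have : 0 ≤ w := hs.trans hsw
    positivity
  nlinarith

theorem lemA (m : ℕ) {α h β s : ℝ} (hα : 0 ≤ α) (hs : 0 ≤ s) (hsh : s ≤ h) (hh : h + α ≤ β)
    (hβ : β ≤ 1 / 2) : T m β (h + α) * ff m s ≤ T m β h * ff m (s + α) := by
  have h1 : T m β (h + α) = ∫ w in h..(β - α), ff m (w + α) := by
    rw [intervalIntegral.integral_comp_add_right (ff m) α, sub_add_cancel]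
    rfl
  have hfs : 0 ≤ ff m (s + α) := ff_nonneg m (by linarith) (by linarith)
  have h2 : (∫ w in h..(β - α), ff m (w + α)) * ff m s ≤
      (∫ w in h..(β - α), ff m w) * ff m (s + α) := by
    rw [← intervalIntegral.integral_mul_const, ← intervalIntegral.integral_mul_const]
    refine intervalIntegral.integral_mono_on (by linarith)
      (((ff_cont m).comp (by fun_prop : Continuous fun w : ℝ => w + α)).mul
        continuous_const |>.intervalIntegrable _ _)
      (((ff_cont m).mul continuous_const).intervalIntegrable _ _) fun w hw => ?_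
    exact lc m hα hs (hsh.trans hw.1) (by linarith [hw.2])
  have h3 : ∫ w in h..(β - α), ff m w ≤ T m β h :=
    mono_int m (by linarith) le_rfl (by linarith) (by linarith) hβ
  rw [h1]
  exact h2.trans (mul_le_mul_of_nonneg_right h3 hfs)

theorem lemB (m : ℕ) {α h β : ℝ} (hα : 0 ≤ α) (h0 : 0 ≤ h) (hh : h + α ≤ β) (hβ : β ≤ 1 / 2) :
    T m β (h + α) * T m β 0 ≤ T m β α * T m β h := by
  have e1 := T_split m β 0 h
  have e2 := T_split m β α (h + α)
  have e3 : ∫ u in α..(h + α), ff m u = ∫ s in (0 : ℝ)..h, ff m (s + α) := by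
    rw [intervalIntegral.integral_comp_add_right (ff m) α, zero_add]
  have key : T m β (h + α) * (∫ s in (0 : ℝ)..h, ff m s) ≤
      T m β h * ∫ s in (0 : ℝ)..h, ff m (s + α) := by
    rw [← intervalIntegral.integral_const_mul, ← intervalIntegral.integral_const_mul]
    refine intervalIntegral.integral_mono_on h0
      ((continuous_const.mul (ff_cont m)).intervalIntegrable _ _)
      ((continuous_const.mul ((ff_cont m).comp
        (by fun_prop : Continuous fun w : ℝ => w + α))).intervalIntegrable _ _) fun s hs => ?_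
    exact lemA m hα hs.1 hs.2 hh hβ
  rw [e3] at e2
  rw [e1, e2]
  nlinarith

theorem int_T_zero (m : ℕ) {β : ℝ} (hβ0 : 0 ≤ β) (hβ : β ≤ 1 / 2) :
    ∫ h in (0 : ℝ)..β, T m β h ≤ 1 / (8 * ((m : ℝ) + 1)) := by
  have hd : ∀ h ∈ uIcc 0 β, HasDerivAt (fun h : ℝ => h * T m β h -
      (1 - 4 * h ^ 2) ^ (m + 1) / (8 * ((m : ℝ) + 1))) (T m β h) h := by
    intro h _
    have h1 : HasDerivAt (fun h : ℝ => h * T m β h) (1 * T m β h + h * -ff m h) h :=
      (hasDerivAt_id h).mul (T_deriv m β h)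
    have h2 : HasDerivAt (fun h : ℝ => 1 - 4 * h ^ 2) (-(8 * h)) h := by
      have := ((hasDerivAt_pow 2 h).const_mul 4).const_sub 1
      refine this.congr_deriv ?_
      push_cast
      ring
    have h3 := (h2.pow (m + 1)).div_const (8 * ((m : ℝ) + 1))
    refine (h1.sub h3).congr_deriv ?_
    have hm : (m : ℝ) + 1 ≠ 0 := by positivity
    unfold ff
    push_cast
    field_simp
    ring
  rw [intervalIntegral.integral_eq_sub_of_hasDerivAt hd ((T_cont m β).intervalIntegrable _ _)]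
  have h4 : T m β β = 0 := intervalIntegral.integral_same
  have h5 : 0 ≤ (1 - 4 * β ^ 2) ^ (m + 1) := pow_nonneg (by nlinarith) _
  have h6 : 0 ≤ (1 - 4 * β ^ 2) ^ (m + 1) / (8 * ((m : ℝ) + 1)) := by positivity
  rw [h4]
  norm_num
  linarith

theorem excess (m : ℕ) {α β : ℝ} (hα : 0 ≤ α) (hαβ : α ≤ β) (hβ : β ≤ 1 / 2) :
    (∫ s in α..β, T m β s) * T m β 0 ≤ T m β α * (1 / (8 * ((m : ℝ) + 1))) := by
  have e1 : ∫ s in α..β, T m β s = ∫ h in (0 : ℝ)..(β - α), T m β (h + α) := by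
    rw [intervalIntegral.integral_comp_add_right (T m β) α, zero_add, sub_add_cancel]
  have hTα : 0 ≤ T m β α := T_nonneg m (by linarith) hαβ hβ
  have h1 : (∫ h in (0 : ℝ)..(β - α), T m β (h + α)) * T m β 0 ≤
      T m β α * ∫ h in (0 : ℝ)..(β - α), T m β h := by
    rw [← intervalIntegral.integral_mul_const, ← intervalIntegral.integral_const_mul]
    refine intervalIntegral.integral_mono_on (by linarith)
      ((((T_cont m β).comp (by fun_prop : Continuous fun w : ℝ => w + α)).mul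
        continuous_const).intervalIntegrable _ _)
      ((continuous_const.mul (T_cont m β)).intervalIntegrable _ _) fun h hh => ?_
    exact lemB m hα hh.1 (by linarith [hh.2]) hβ
  have h2 : ∫ h in (0 : ℝ)..(β - α), T m β h ≤ ∫ h in (0 : ℝ)..β, T m β h := by
    refine intervalIntegral.integral_mono_interval le_rfl (by linarith) (by linarith) ?_
      ((T_cont m β).intervalIntegrable _ _)
    refine (ae_restrict_iff' measurableSet_Ioc).2 (Eventually.of_forall fun u hu => ?_)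
    exact T_nonneg m (by linarith [hu.1]) hu.2 hβ
  rw [e1]
  refine h1.trans (mul_le_mul_of_nonneg_left ?_ hTα)
  exact h2.trans (int_T_zero m (hα.trans hαβ) hβ)

/-! ### the weight -/

theorem wt_eq (m : ℕ) (x : ℂ) (h : |x.re| - 1 / 2 ≤ 1 / 2 - |x.im|) :
    wt m x = (∫ u in (|x.re| - 1 / 2)..(1 / 2 - |x.im|), ff m u) / NN m := by
  unfold wt
  rw [max_eq_right h]
  rfl

theorem wt_zero (m : ℕ) (x : ℂ) (h : 1 / 2 - |x.im| ≤ |x.re| - 1 / 2) : wt m x = 0 := by
  unfold wt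
  rw [max_eq_left h, intervalIntegral.integral_same, zero_div]

theorem wt_ge (m : ℕ) (hm : 400 ≤ m) (x : ℂ) {l r : ℝ} (h1 : |x.re| - 1 / 2 ≤ l) (h2 : l ≤ r)
    (h3 : r ≤ 1 / 2 - |x.im|) : (∫ u in l..r, ff m u) / NN m ≤ wt m x := by
  rw [wt_eq m x (h1.trans (h2.trans h3))]
  have hN := NN_pos m hm
  have h4 := abs_nonneg x.re
  have h5 := abs_nonneg x.im
  have := mono_int m (by linarith) h1 h2 h3 (by linarith)
  gcongr

theorem part1 (δ : ℝ) (hδ : 0 < δ) : ∃ m₀ : ℕ, ∀ m : ℕ, m₀ ≤ m →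
    (∀ x : ℂ, |x.re| ≤ 1 / 2 - δ → |x.im| ≤ 1 / 2 - δ → 1 - δ ≤ wt m x) ∧
    (∀ x : ℂ, 1 / 2 + δ ≤ |x.re| → wt m x ≤ δ) := by
  rcases le_or_gt δ (1 / 2) with h | h
  · obtain ⟨m₀, hm₀⟩ := tail_small hδ h (by positivity : 0 < δ / 2)
    refine ⟨max m₀ 400, fun m hm => ?_⟩
    have hm1 := hm₀ m ((le_max_left _ _).trans hm)
    have hm2 : 400 ≤ m := (le_max_right _ _).trans hm
    have hN := NN_pos m hm2
    refine ⟨fun x h1 h2 => ?_, fun x h1 => ?_⟩
    · refine le_trans ?_ (wt_ge m hm2 x (l := -δ) (r := δ) (by linarith) (by linarith)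
        (by linarith))
      rw [mid_eq, le_div_iff₀ hN]
      nlinarith
    · rcases le_total (1 / 2 - |x.im|) (|x.re| - 1 / 2) with h3 | h3
      · rw [wt_zero m x h3]
        exact hδ.le
      · rw [wt_eq m x h3, div_le_iff₀ hN]
        have h4 := mono_int m (by linarith : -(1 / 2) ≤ δ) (by linarith) h3
          (by have := abs_nonneg x.im; linarith : 1 / 2 - |x.im| ≤ 1 / 2) le_rfl
        nlinarith
  · refine ⟨0, fun m _ => ⟨fun x h1 _ => ?_, fun x h1 => ?_⟩⟩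
    · have := abs_nonneg x.re
      linarith
    · have := abs_nonneg x.im
      rw [wt_zero m x (by linarith)]
      exact hδ.le

theorem part3 (m : ℕ) (hm : 400 ≤ m) (a b : ℝ) (ha : 1 / 2 ≤ a) (hb : |b| ≤ 9 / 20) :
    ∫ t in Ioi a, wt m ⟨t, b⟩ ≤ 2 / 5 / √m * wt m ⟨a, b⟩ := by
  have hmR : (400 : ℝ) ≤ m := by exact_mod_cast hm
  have hs : 0 < √(m : ℝ) := Real.sqrt_pos.2 (by linarith)
  have hsq : √(m : ℝ) * √(m : ℝ) = m := Real.mul_self_sqrt (by linarith)
  have hN := NN_pos m hm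
  have hb0 := abs_nonneg b
  set β : ℝ := 1 / 2 - |b| with hβ
  have hβ1 : 1 / 20 ≤ β := by linarith
  have hβ2 : β ≤ 1 / 2 := by linarith
  have hre : ∀ t : ℝ, 1 / 2 ≤ t → |(⟨t, b⟩ : ℂ).re| - 1 / 2 = t - 1 / 2 := by
    intro t ht
    show |t| - 1 / 2 = t - 1 / 2
    rw [abs_of_nonneg (by linarith)]
  have him : ∀ t : ℝ, 1 / 2 - |(⟨t, b⟩ : ℂ).im| = β := fun t => rfl
  rcases le_total β (a - 1 / 2) with h | h
  · -- everything vanishes
    have h1 : ∫ t in Ioi a, wt m ⟨t, b⟩ = 0 := by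
      rw [setIntegral_congr_fun measurableSet_Ioi (g := fun _ => (0 : ℝ)), integral_zero]
      intro t ht
      have ht' : a < t := ht
      exact wt_zero m _ (by rw [hre t (by linarith), him t]; linarith)
    rw [h1, wt_zero m _ (by rw [hre a ha, him a]; exact h), mul_zero]
  · set α : ℝ := a - 1 / 2 with hα
    have hα0 : 0 ≤ α := by linarith
    have h1 : ∫ t in Ioi a, wt m ⟨t, b⟩ = (∫ s in α..β, T m β s) / NN m := by
      have h2 : ∫ t in Ioi a, wt m ⟨t, b⟩ = ∫ t in Ioc a (β + 1 / 2), wt m ⟨t, b⟩ := by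
        refine setIntegral_eq_of_subset_of_forall_sdiff_eq_zero measurableSet_Ioi
          Ioc_subset_Ioi_self fun t ht => ?_
        have ht1 : a < t := ht.1
        have ht2 : β + 1 / 2 < t := by
          by_contra hc
          exact ht.2 ⟨ht1, not_lt.1 hc⟩
        exact wt_zero m _ (by rw [hre t (by linarith), him t]; linarith)
      rw [h2, ← intervalIntegral.integral_of_le (by linarith)]
      have h3 : ∫ t in a..(β + 1 / 2), wt m ⟨t, b⟩ =
          ∫ t in a..(β + 1 / 2), (fun s => T m β s / NN m) (t - 1 / 2) := by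
        refine intervalIntegral.integral_congr fun t ht => ?_
        rw [uIcc_of_le (by linarith)] at ht
        show wt m ⟨t, b⟩ = T m β (t - 1 / 2) / NN m
        rw [wt_eq m _ (by rw [hre t (by linarith [ht.1]), him t]; linarith [ht.2]),
          hre t (by linarith [ht.1]), him t]
        rfl
      rw [h3, intervalIntegral.integral_comp_sub_right (fun s => T m β s / NN m) (1 / 2),
        add_sub_cancel_right, intervalIntegral.integral_div]
    have h4 : wt m ⟨a, b⟩ = T m β α / NN m := by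
      rw [wt_eq m _ (by rw [hre a ha, him a]; exact h), hre a ha, him a]
      rfl
    rw [h1, h4]
    have h5 := excess m hα0 h hβ2
    have h6 : 2 / 5 / √m ≤ T m β 0 := by
      refine (I_lower m hm).trans ?_
      exact mono_int m (by norm_num) le_rfl (by norm_num) hβ1 hβ2
    have hT0 : 0 < T m β 0 := lt_of_lt_of_le (by positivity) h6
    have hTα : 0 ≤ T m β α := T_nonneg m (by linarith) h hβ2
    have hH : 0 ≤ ∫ s in α..β, T m β s :=
      intervalIntegral.integral_nonneg h fun s hs => T_nonneg m (by linarith [hs.1]) hs.2 hβ2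
    -- `H ≤ (2/5)/√m * T α`
    have h7 : ∫ s in α..β, T m β s ≤ 2 / 5 / √m * T m β α := by
      have h8 : (∫ s in α..β, T m β s) * (2 / 5 / √m) ≤ T m β α * (1 / (8 * ((m : ℝ) + 1))) :=
        (mul_le_mul_of_nonneg_left h6 hH).trans h5
      have h9 : 1 / (8 * ((m : ℝ) + 1)) ≤ 2 / 5 / √m * (2 / 5 / √m) := by
        have : 2 / 5 / √(m : ℝ) * (2 / 5 / √m) = 4 / 25 / m := by
          rw [div_mul_div_comm, hsq]
          norm_num
        rw [this, div_le_div_iff₀ (by positivity) (by linarith)]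
        nlinarith
      have h10 : (∫ s in α..β, T m β s) * (2 / 5 / √m) ≤
          (2 / 5 / √m * T m β α) * (2 / 5 / √m) := by
        refine h8.trans ?_
        calc T m β α * (1 / (8 * ((m : ℝ) + 1))) ≤ T m β α * (2 / 5 / √m * (2 / 5 / √m)) :=
              mul_le_mul_of_nonneg_left h9 hTα
          _ = _ := by ring
      exact le_of_mul_le_mul_right h10 (by positivity)
    rw [div_le_iff₀ hN, mul_assoc, div_mul_cancel₀ _ hN.ne']
    exact h7

theorem c1 (c0 : S_C0) : S_C1 := by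
  refine ⟨fun δ hδ => ?_, ?_⟩
  · obtain ⟨m₀, hm₀⟩ := part1 δ hδ
    refine ⟨max m₀ 1, fun m hm => ?_⟩
    obtain ⟨h1, h2⟩ := hm₀ m ((le_max_left _ _).trans hm)
    refine ⟨h1, fun x hx => ?_⟩
    rcases hx with hx | hx
    · exact h2 x hx
    · obtain ⟨-, -, -, -, -, -, -, hsym, -⟩ := c0 m ((le_max_right _ _).trans hm)
      have h3 := hsym x.im x.re
      have h4 := h2 ⟨x.im, x.re⟩ hx
      rw [← h3] at h4
      exact h4
  · obtain ⟨m₀, hm₀⟩ := tail_small (δ := 1 / 10) (ε := 1 / 100) (by norm_num) (by norm_num)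
      (by norm_num)
    refine ⟨max m₀ 400, fun m hm => ?_⟩
    have hm1 := hm₀ m ((le_max_left _ _).trans hm)
    have hm2 : 400 ≤ m := (le_max_right _ _).trans hm
    have hmR : (400 : ℝ) ≤ m := by exact_mod_cast hm2
    have hN := NN_pos m hm2
    have hNl := NN_lower m hm2
    have hs20 : 20 ≤ √(m : ℝ) := Real.le_sqrt_of_sq_le (by norm_num; omega)
    have hs : 0 < √(m : ℝ) := by linarith
    have hsplit : ∫ u in (0 : ℝ)..(1 / 10), ff m u = NN m / 2 - ∫ u in (1 / 10 : ℝ)..(1 / 2), ff m u := by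
      rw [NN_eq, ← intervalIntegral.integral_add_adjacent_intervals (ff_int m 0 (1 / 10))
        (ff_int m (1 / 10) (1 / 2))]
      ring
    refine ⟨fun x h1 h2 => ?_, fun x h1 h2 => ?_, fun a b ha hb => part3 m hm2 a b ha hb⟩
    · refine le_trans ?_ (wt_ge m hm2 x (l := 0) (r := 1 / 10) (by linarith) (by norm_num)
        (by linarith))
      rw [hsplit, le_div_iff₀ hN]
      linarith
    · set ρ : ℝ := 3 / 20 / √m with hρ
      have hρ0 : 0 < ρ := by positivity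
      have hρ1 : ρ ≤ 1 / 10 := by
        rw [hρ, div_le_iff₀ hs]
        linarith
      refine le_trans ?_ (wt_ge m hm2 x (l := ρ) (r := 1 / 10) (by linarith) hρ1 (by linarith))
      have h3 : ∫ u in (0 : ℝ)..ρ, ff m u ≤ ρ := by
        have h4 : ∫ u in (0 : ℝ)..ρ, ff m u ≤ ∫ _u in (0 : ℝ)..ρ, (1 : ℝ) := by
          refine intervalIntegral.integral_mono_on hρ0.le (ff_int m _ _) intervalIntegrable_const
            fun u hu => ?_
          unfold ff
          exact pow_le_one₀ (by nlinarith [hu.1, hu.2]) (by nlinarith [sq_nonneg u])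
        rw [intervalIntegral.integral_const, smul_eq_mul, sub_zero, mul_one] at h4
        exact h4
      have h5 : ∫ u in ρ..(1 / 10), ff m u = (∫ u in (0 : ℝ)..(1 / 10), ff m u) -
          ∫ u in (0 : ℝ)..ρ, ff m u := by
        rw [← intervalIntegral.integral_add_adjacent_intervals (ff_int m 0 ρ)
          (ff_int m ρ (1 / 10))]
        ring
      have h6 : ρ ≤ 3 / 16 * NN m := by
        have : ρ = 3 / 16 * (4 / 5 / √m) := by rw [hρ]; ring
        rw [this]
        gcongr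
      rw [h5, hsplit, le_div_iff₀ hN]
      linarith

end Pool.Agent.TH81.HU
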